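import Pool.Agent.Y755.AX.Stm

/-!
# Project AX (helper755): stationarity and dependence from cylinders
-/

set_option autoImplicit false

open MeasureTheory ProbabilityTheory Filter

namespace Pool.Agent.Y545.AX.Cyl

open Pool.Agent.Y755.AX

section

variable {α : Type} [Fintype α] [MeasurableSpace α] [MeasurableSingletonClass α]

/-- the cylinders on a finite set -/
def PS (α : Type) (I : Finset ℤ) : Set (Set (ℤ → α)) := {S | ∃ e : ℤ → α, S = cyl I e}

theorem cyl_meas (I : Finset ℤ) (e : ℤ → α) {m : MeasurableSpace (ℤ → α)}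
    (hm : ∀ x ∈ I, Measurable[m] (fun f : ℤ → α => f x)) : MeasurableSet[m] (cyl I e) := by
  have : cyl I e = ⋂ x ∈ I, (fun f : ℤ → α => f x) ⁻¹' {e x} := by
    ext f
    simp [cyl]
  rw [this]
  exact Finset.measurableSet_biInter I fun x hx => hm x hx (measurableSet_singleton _)

theorem meas_Fs {S : Set ℤ} {x : ℤ} (hx : x ∈ S) :
    Measurable[Fs (α := α) S] (fun f : ℤ → α => f x) := by
  have h : MeasurableSpace.comap (fun f : ℤ → α => f x) inferInstance ≤ Fs (α := α) S :=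
    le_iSup₂ (f := fun (x : ℤ) (_ : x ∈ S) =>
      MeasurableSpace.comap (fun f : ℤ → α => f x) inferInstance) x hx
  exact Measurable.mono (comap_measurable (fun f : ℤ → α => f x)) h le_rfl

theorem Fs_mono {S T : Set ℤ} (h : S ⊆ T) : Fs (α := α) S ≤ Fs (α := α) T :=
  iSup₂_le fun x hx => (meas_Fs (h hx)).comap_le

theorem Fs_le (S : Set ℤ) : Fs (α := α) S ≤ MeasurableSpace.pi :=
  iSup₂_le fun x _ => (measurable_pi_apply x).comap_le

theorem Fs_eq (I : Finset ℤ) :
    Fs (α := α) (↑I : Set ℤ) = MeasurableSpace.generateFrom (PS α I) := by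
  apply le_antisymm
  · refine iSup₂_le fun x hx => ?_
    rintro _ ⟨t, _, rfl⟩
    have hx' : x ∈ I := hx
    have he : (fun f : ℤ → α => f x) ⁻¹' t =
        ⋃ g ∈ {g : I → α | g ⟨x, hx'⟩ ∈ t},
          cyl I (fun y => if h : y ∈ I then g ⟨y, h⟩ else g ⟨x, hx'⟩) := by
      ext f
      simp only [Set.mem_preimage, Set.mem_setOf_eq, Set.mem_iUnion, exists_prop, cyl]
      constructor
      · intro hf
        refine ⟨fun y => f y.1, hf, fun y hy => ?_⟩
        rw [dif_pos hy]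
      · rintro ⟨g, hg, hf⟩
        have := hf x hx'
        rw [dif_pos hx'] at this
        rw [this]
        exact hg
    rw [he]
    exact MeasurableSet.biUnion (Set.to_countable _) fun g _ =>
      MeasurableSpace.measurableSet_generateFrom ⟨_, rfl⟩
  · refine MeasurableSpace.generateFrom_le ?_
    rintro _ ⟨e, rfl⟩
    exact cyl_meas I e fun x hx => meas_Fs hx

theorem PS_pi (I : Finset ℤ) : IsPiSystem (PS α I) := by
  rintro _ ⟨e, rfl⟩ _ ⟨e', rfl⟩ ⟨f, hf, hf'⟩
  refine ⟨e, Set.Subset.antisymm Set.inter_subset_left fun g hg => ⟨hg, fun x hx => ?_⟩⟩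
  rw [hg x hx, ← hf x hx, hf' x hx]

end

theorem t_STAC : S_STAC := by
  intro α _ _ _ μ hμ h
  have hsh : Measurable (sh : (ℤ → α) → ℤ → α) :=
    measurable_pi_iff.2 fun x => measurable_pi_apply (x + 1)
  have : IsProbabilityMeasure (μ.map sh) := Measure.isProbabilityMeasure_map hsh.aemeasurable
  show μ.map sh = μ
  refine ext_of_generate_finite {S | ∃ (N : ℕ) (e : ℤ → α), S = cyl (Finset.Ico (-(N : ℤ)) N) e}
    ?_ ?_ ?_ (by simp)
  · apply le_antisymm
    · refine iSup_le fun x => ?_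
      have hx : x ∈ (↑(Finset.Ico (-((x.natAbs + 1 : ℕ) : ℤ)) ((x.natAbs + 1 : ℕ) : ℤ)) : Set ℤ) := by
        rw [Finset.coe_Ico, Set.mem_Ico]
        omega
      refine (meas_Fs (α := α) hx).comap_le.trans ?_
      rw [Fs_eq]
      refine MeasurableSpace.generateFrom_mono ?_
      rintro _ ⟨e, rfl⟩
      exact ⟨_, e, rfl⟩
    · refine MeasurableSpace.generateFrom_le ?_
      rintro _ ⟨N, e, rfl⟩
      exact cyl_meas _ e fun x _ => measurable_pi_apply x
  · rintro _ ⟨N, e, rfl⟩ _ ⟨M, e', rfl⟩ ⟨f, hf, hf'⟩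
    rcases le_total N M with hNM | hNM
    · refine ⟨M, e', Set.Subset.antisymm Set.inter_subset_right fun g hg => ⟨fun x hx => ?_, hg⟩⟩
      have hx' : x ∈ Finset.Ico (-(M : ℤ)) M := by
        rw [Finset.mem_Ico] at hx ⊢
        omega
      rw [hg x hx', ← hf' x hx', hf x hx]
    · refine ⟨N, e, Set.Subset.antisymm Set.inter_subset_left fun g hg => ⟨hg, fun x hx => ?_⟩⟩
      have hx' : x ∈ Finset.Ico (-(N : ℤ)) N := by
        rw [Finset.mem_Ico] at hx ⊢
        omega
      rw [hg x hx', ← hf x hx', hf' x hx]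
  · rintro _ ⟨N, e, rfl⟩
    rw [Measure.map_apply hsh (cyl_meas _ e fun x _ => measurable_pi_apply x)]
    have h1 := h (-(N : ℤ)) (2 * N) e
    rw [show (-(N : ℤ)) + ((2 * N : ℕ) : ℤ) = N by push_cast; ring] at h1
    exact h1

theorem t_DEPC : S_DEPC := by
  intro α _ _ _ k μ hμ h
  have key : ∀ L : ℕ, Indep (Fs (α := α) (↑(Finset.Ico (-(L : ℤ)) 0) : Set ℤ))
      (Fs (α := α) (↑(Finset.Ico (k : ℤ) (k + L)) : Set ℤ)) μ := by
    intro L
    refine IndepSets.indep (Fs_le _) (Fs_le _) (PS_pi _) (PS_pi _) (Fs_eq _) (Fs_eq _) ?_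
    rw [IndepSets_iff]
    rintro _ _ ⟨e, rfl⟩ ⟨e', rfl⟩
    have h1 := h L (fun x => if x < 0 then e x else e' x)
    have e1 : cyl (Finset.Ico (-(L : ℤ)) 0) (fun x => if x < 0 then e x else e' x) =
        cyl (Finset.Ico (-(L : ℤ)) 0) e := by
      ext f
      refine forall₂_congr fun x hx => ?_
      beta_reduce
      rw [if_pos (Finset.mem_Ico.1 hx).2]
    have e2 : cyl (Finset.Ico (k : ℤ) (k + L)) (fun x => if x < 0 then e x else e' x) =
        cyl (Finset.Ico (k : ℤ) (k + L)) e' := by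
      ext f
      refine forall₂_congr fun x hx => ?_
      have := (Finset.mem_Ico.1 hx).1
      beta_reduce
      rw [if_neg (by omega)]
    rwa [e1, e2] at h1
  have e1 : Fs (α := α) {x : ℤ | x < 0} =
      ⨆ L : ℕ, Fs (α := α) (↑(Finset.Ico (-(L : ℤ)) 0) : Set ℤ) := by
    apply le_antisymm
    · refine iSup₂_le fun x hx => ?_
      have hx' : x < 0 := hx
      refine le_iSup_of_le (-x).toNat (meas_Fs ?_).comap_le
      rw [Finset.coe_Ico, Set.mem_Ico]
      omega
    · refine iSup_le fun L => Fs_mono fun x hx => ?_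
      rw [Finset.coe_Ico, Set.mem_Ico] at hx
      exact hx.2
  have e2 : Fs (α := α) {x : ℤ | (k : ℤ) ≤ x} =
      ⨆ L : ℕ, Fs (α := α) (↑(Finset.Ico (k : ℤ) (k + L)) : Set ℤ) := by
    apply le_antisymm
    · refine iSup₂_le fun x hx => ?_
      have hx' : (k : ℤ) ≤ x := hx
      refine le_iSup_of_le (x + 1).toNat (meas_Fs ?_).comap_le
      rw [Finset.coe_Ico, Set.mem_Ico]
      omega
    · refine iSup_le fun L => Fs_mono fun x hx => ?_
      rw [Finset.coe_Ico, Set.mem_Ico] at hx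
      exact hx.1
  have m1 : Monotone fun L : ℕ => Fs (α := α) (↑(Finset.Ico (-(L : ℤ)) 0) : Set ℤ) := by
    intro L M hLM
    refine Fs_mono fun x hx => ?_
    rw [Finset.coe_Ico, Set.mem_Ico] at hx ⊢
    omega
  have m2 : Monotone fun L : ℕ => Fs (α := α) (↑(Finset.Ico (k : ℤ) (k + L)) : Set ℤ) := by
    intro L M hLM
    refine Fs_mono fun x hx => ?_
    rw [Finset.coe_Ico, Set.mem_Ico] at hx ⊢
    omega
  have key2 : ∀ L M : ℕ, Indep (Fs (α := α) (↑(Finset.Ico (-(L : ℤ)) 0) : Set ℤ))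
      (Fs (α := α) (↑(Finset.Ico (k : ℤ) (k + M)) : Set ℤ)) μ := fun L M =>
    indep_of_indep_of_le_left (indep_of_indep_of_le_right (key (max L M))
      (m2 (le_max_right L M))) (m1 (le_max_left L M))
  show Indep (Fs {x : ℤ | x < 0}) (Fs {x : ℤ | (k : ℤ) ≤ x}) μ
  rw [e1, e2]
  refine indep_iSup_of_monotone (fun L => ?_) (fun L => Fs_le _) (iSup_le fun L => Fs_le _) m1
  refine Indep.symm ?_
  exact indep_iSup_of_monotone (fun M => (key2 L M).symm) (fun M => Fs_le _) (Fs_le _) m2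

end Pool.Agent.Y545.AX.Cyl
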